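import Mathlib
import Pool.Agent.H66.MinPd

set_option autoImplicit false

/-- A nonzero finite module of projective dimension at most one over a Noetherian local ring,
and a minimal prime of the ring contained in no minimal prime of the module. -/
theorem Pool.Agent.Results.MP_07e2b8_al.MinimalPrimeEscapes.result :
    ∃ (R : Type) (_ : CommRing R) (_ : IsNoetherianRing R) (_ : IsLocalRing R)
      (N : Type) (_ : AddCommGroup N) (_ : Module R N), Module.Finite R N ∧ Nontrivial N ∧
      CategoryTheory.HasProjectiveDimensionLE (ModuleCat.of R N) 1 ∧
      ∃ p ∈ minimalPrimes R, ∀ q ∈ (Module.annihilator R N).minimalPrimes, ¬ p ≤ q :=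
  Pool.Agent.H66.MinPd.main
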